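import Mathlib

/-!
# Brackets of points of `ℝ⁴` (five by five determinants), sign rules, the three term
Grassmann–Plücker relation, and brackets of facets of a simplicial polytope.
-/

namespace Pool.Agent.X161.ND

/-- the bracket of five vectors of `ℝ⁵` -/
noncomputable def D (a b c d e : Fin 5 → ℝ) : ℝ := Matrix.det (Matrix.of ![a, b, c, d, e])

theorem D_sw1 (a b c d e : Fin 5 → ℝ) : D b a c d e = - D a b c d e := by
  have h := Matrix.det_permute (Equiv.swap (0 : Fin 5) 1) (Matrix.of ![a, b, c, d, e])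
  have h2 : (Matrix.of ![a, b, c, d, e]).submatrix (Equiv.swap (0 : Fin 5) 1) id
      = Matrix.of ![b, a, c, d, e] := by
    ext i j; fin_cases i <;> rfl
  rw [h2] at h
  simp only [D]; rw [h]; simp

theorem D_sw2 (a b c d e : Fin 5 → ℝ) : D a c b d e = - D a b c d e := by
  have h := Matrix.det_permute (Equiv.swap (1 : Fin 5) 2) (Matrix.of ![a, b, c, d, e])
  have h2 : (Matrix.of ![a, b, c, d, e]).submatrix (Equiv.swap (1 : Fin 5) 2) id
      = Matrix.of ![a, c, b, d, e] := by
    ext i j; fin_cases i <;> rfl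
  rw [h2] at h
  simp only [D]; rw [h]; simp

theorem D_sw3 (a b c d e : Fin 5 → ℝ) : D a b d c e = - D a b c d e := by
  have h := Matrix.det_permute (Equiv.swap (2 : Fin 5) 3) (Matrix.of ![a, b, c, d, e])
  have h2 : (Matrix.of ![a, b, c, d, e]).submatrix (Equiv.swap (2 : Fin 5) 3) id
      = Matrix.of ![a, b, d, c, e] := by
    ext i j; fin_cases i <;> rfl
  rw [h2] at h
  simp only [D]; rw [h]; simp

theorem D_sw4 (a b c d e : Fin 5 → ℝ) : D a b c e d = - D a b c d e := by
  have h := Matrix.det_permute (Equiv.swap (3 : Fin 5) 4) (Matrix.of ![a, b, c, d, e])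
  have h2 : (Matrix.of ![a, b, c, d, e]).submatrix (Equiv.swap (3 : Fin 5) 4) id
      = Matrix.of ![a, b, c, e, d] := by
    ext i j; fin_cases i <;> rfl
  rw [h2] at h
  simp only [D]; rw [h]; simp

theorem D_aa (a c d e : Fin 5 → ℝ) : D a a c d e = 0 := by
  have := D_sw1 a a c d e; linarith

theorem D_lin (a b c d : Fin 5 → ℝ) : ∃ m : Fin 5 → ℝ, ∀ e, D e a b c d = ∑ j, e j * m j := by
  refine ⟨fun j => (-1) ^ (j : ℕ) * Matrix.det
    ((Matrix.of ![(0 : Fin 5 → ℝ), a, b, c, d]).submatrix Fin.succ j.succAbove), fun e => ?_⟩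
  rw [D, Matrix.det_succ_row_zero]
  refine Finset.sum_congr rfl fun j _ => ?_
  have h : (Matrix.of ![e, a, b, c, d]).submatrix Fin.succ j.succAbove
      = (Matrix.of ![(0 : Fin 5 → ℝ), a, b, c, d]).submatrix Fin.succ j.succAbove := by
    ext i k; fin_cases i <;> rfl
  rw [h]
  simp only [Matrix.of_apply, Matrix.cons_val_zero]
  ring

theorem cramer6 (p : Fin 6 → Fin 5 → ℝ) (k : Fin 5) :
    ∑ i : Fin 6, (-1) ^ (i : ℕ) * p i k * Matrix.det (Matrix.of fun j => p (i.succAbove j)) = 0 := by
  let M : Matrix (Fin 6) (Fin 6) ℝ := fun i j => (Fin.cons (p i k) (p i) : Fin 6 → ℝ) j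
  have h0 : M.det = 0 := by
    refine Matrix.det_zero_of_column_eq (i := 0) (j := k.succ) (Fin.succ_ne_zero k).symm fun i => ?_
    simp [M]
  rw [Matrix.det_succ_column_zero] at h0
  rw [← h0]
  refine Finset.sum_congr rfl fun i _ => ?_
  congr 1

/-- the three term Grassmann–Plücker relation -/
theorem D_gp (a b c w x y z : Fin 5 → ℝ) :
    D a b c w x * D a b c y z - D a b c w y * D a b c x z + D a b c w z * D a b c x y = 0 := by
  obtain ⟨m, hm⟩ := D_lin a b c w
  have h : ∀ k, D b c x y z * a k - D a c x y z * b k + D a b x y z * c k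
      - D a b c y z * x k + D a b c x z * y k - D a b c x y * z k = 0 := by
    intro k
    have := cramer6 ![a, b, c, x, y, z] k
    rw [Fin.sum_univ_six] at this
    have e0 : (Matrix.of fun j => (![a, b, c, x, y, z] : Fin 6 → Fin 5 → ℝ) ((0 : Fin 6).succAbove j))
        = Matrix.of ![b, c, x, y, z] := by ext i j; fin_cases i <;> rfl
    have e1 : (Matrix.of fun j => (![a, b, c, x, y, z] : Fin 6 → Fin 5 → ℝ) ((1 : Fin 6).succAbove j))
        = Matrix.of ![a, c, x, y, z] := by ext i j; fin_cases i <;> rfl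
    have e2 : (Matrix.of fun j => (![a, b, c, x, y, z] : Fin 6 → Fin 5 → ℝ) ((2 : Fin 6).succAbove j))
        = Matrix.of ![a, b, x, y, z] := by ext i j; fin_cases i <;> rfl
    have e3 : (Matrix.of fun j => (![a, b, c, x, y, z] : Fin 6 → Fin 5 → ℝ) ((3 : Fin 6).succAbove j))
        = Matrix.of ![a, b, c, y, z] := by ext i j; fin_cases i <;> rfl
    have e4 : (Matrix.of fun j => (![a, b, c, x, y, z] : Fin 6 → Fin 5 → ℝ) ((4 : Fin 6).succAbove j))
        = Matrix.of ![a, b, c, x, z] := by ext i j; fin_cases i <;> rfl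
    have e5 : (Matrix.of fun j => (![a, b, c, x, y, z] : Fin 6 → Fin 5 → ℝ) ((5 : Fin 6).succAbove j))
        = Matrix.of ![a, b, c, x, y] := by ext i j; fin_cases i <;> rfl
    rw [e0, e1, e2, e3, e4, e5] at this
    simp only [D]
    simp at this
    linarith
  have key : D b c x y z * D a a b c w - D a c x y z * D b a b c w + D a b x y z * D c a b c w
      - D a b c y z * D x a b c w + D a b c x z * D y a b c w - D a b c x y * D z a b c w = 0 := by
    rw [hm, hm, hm, hm, hm, hm]
    simp only [Finset.mul_sum]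
    rw [← Finset.sum_sub_distrib, ← Finset.sum_add_distrib, ← Finset.sum_sub_distrib,
      ← Finset.sum_add_distrib, ← Finset.sum_sub_distrib]
    refine Finset.sum_eq_zero fun k _ => ?_
    have := h k
    linear_combination m k * this
  have za : D a a b c w = 0 := D_aa _ _ _ _
  have zb : D b a b c w = 0 := by rw [D_sw1, D_sw2]; rw [show D a b b c w = 0 from ?_]; · simp
                                  have := D_sw2 a b b c w; linarith
  have zc : D c a b c w = 0 := by
    rw [D_sw1, D_sw2, D_sw3]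
    have := D_sw3 a b c c w
    linarith
  have mv : ∀ e, D e a b c w = D a b c w e := by
    intro e
    rw [D_sw1 a e b c w, D_sw2 a b e c w, D_sw3 a b c e w, D_sw4 a b c w e]; ring
  rw [za, zb, zc, mv x, mv y, mv z] at key
  linarith

end Pool.Agent.X161.ND
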