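import Pool.Agent.X161.ND.Vec2

/-!
# The linear algebra of a polyhedral realization of the dual of `M`
-/

namespace Pool.Agent.X161.ND

open Module

theorem ext4 : ∀ G : Fin 20, ∀ A ∈ facets G, ∀ B ∈ facets G, A ≠ B → ∃ C D : Fin 8,
    facets G = {A, B, C, D} ∧ A ≠ C ∧ A ≠ D ∧ B ≠ C ∧ B ≠ D ∧ C ≠ D := by decide +kernel

theorem ex_other : ∀ G : Fin 20, ∀ A : Fin 8, ∃ B ∈ facets G, A ≠ B := by decide +kernel

theorem ex_facet : ∀ A : Fin 8, ∃ G : Fin 20, A ∈ facets G := by decide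

theorem span3 {E : Type*} [AddCommGroup E] [Module ℝ E] [FiniteDimensional ℝ E]
    (W : Submodule ℝ E) (x y z : E) (hx : x ∈ W) (hy : y ∈ W) (hz : z ∈ W)
    (f g h : E →ₗ[ℝ] ℝ) (fx : f x ≠ 0) (fy : f y = 0) (fz : f z = 0)
    (gx : g x = 0) (gy : g y ≠ 0) (gz : g z = 0) (hx' : h x = 0) (hy' : h y = 0) (hz' : h z ≠ 0) :
    3 ≤ finrank ℝ W ∧ (finrank ℝ W ≤ 3 → ∀ v ∈ W, ∃ a b c : ℝ, v = a • x + b • y + c • z) := by
  have hli : LinearIndependent ℝ ![x, y, z] := by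
    rw [Fintype.linearIndependent_iff]
    intro c hc
    rw [Fin.sum_univ_three] at hc
    simp only [Matrix.cons_val_zero, Matrix.cons_val_one, Matrix.cons_val] at hc
    have h1 := congrArg f hc
    have h2 := congrArg g hc
    have h3 := congrArg h hc
    simp only [map_add, map_smul, smul_eq_mul, fy, fz, gx, gz, hx', hy', mul_zero, add_zero,
      zero_add, map_zero] at h1 h2 h3
    intro i
    fin_cases i
    · exact (mul_eq_zero.1 h1).resolve_right fx
    · exact (mul_eq_zero.1 h2).resolve_right gy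
    · exact (mul_eq_zero.1 h3).resolve_right hz'
  have hS : Submodule.span ℝ (Set.range ![x, y, z]) ≤ W := by
    rw [Submodule.span_le]
    rintro _ ⟨i, rfl⟩
    fin_cases i
    · exact hx
    · exact hy
    · exact hz
  have hc := finrank_span_eq_card hli
  rw [Fintype.card_fin] at hc
  have hle := Submodule.finrank_mono hS
  refine ⟨by omega, fun hW v hv => ?_⟩
  have heq : Submodule.span ℝ (Set.range ![x, y, z]) = W :=
    Submodule.eq_of_le_of_finrank_le hS (by omega)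
  rw [← heq] at hv
  have hr : Set.range ![x, y, z] = {x, y, z} := by
    ext t
    simp only [Set.mem_range, Fin.exists_fin_succ, Set.mem_insert_iff, Set.mem_singleton_iff]
    simp [eq_comm]
  rw [hr, Submodule.mem_span_triple] at hv
  obtain ⟨a, b, c, h⟩ := hv
  exact ⟨a, b, c, h.symm⟩

/-- the data extracted from a realization of the dual complex -/
structure Data (E : Type*) [NormedAddCommGroup E] [InnerProductSpace ℝ E] where
  p : Fin 20 → E
  W : Fin 8 → Submodule ℝ E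
  l : Fin 8 → Fin 8 → E →ₗ[ℝ] ℝ
  m : Fin 8 → Fin 8 → ℝ
  hW : ∀ A, finrank ℝ (W A) ≤ 3
  hWp : ∀ A G G', A ∈ facets G → A ∈ facets G' → p G' - p G ∈ W A
  hl0 : ∀ A B, A ≠ B → ∀ G, A ∈ facets G → B ∈ facets G → l A B (p G) = m A B
  hl1 : ∀ A B, A ≠ B → ∀ G, A ∈ facets G → B ∉ facets G → l A B (p G) < m A B
  hI : ∀ A B, A ≠ B → ∀ z, z ∈ convexHull ℝ {x | ∃ G, A ∈ facets G ∧ x = p G} →
    z ∈ convexHull ℝ {x | ∃ G, B ∈ facets G ∧ x = p G} → l B A z = m B A

/-- the neighbour of the facet `G` across the face opposite to `X` -/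
noncomputable def nb (G : Fin 20) (X : Fin 8) : Fin 20 :=
  if h : X ∈ facets G then (nbEx G X h).choose else G

theorem nb_not {G : Fin 20} {X : Fin 8} (h : X ∈ facets G) : X ∉ facets (nb G X) := by
  rw [nb, dif_pos h]; exact (nbEx G X h).choose_spec.1

theorem nb_mem {G : Fin 20} {X Y : Fin 8} (h : X ∈ facets G) (hY : Y ∈ facets G) (hXY : Y ≠ X) :
    Y ∈ facets (nb G X) := by
  rw [nb, dif_pos h]
  exact (nbEx G X h).choose_spec.2 (Finset.mem_erase.2 ⟨hXY, hY⟩)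

namespace Data

variable {E : Type*} [NormedAddCommGroup E] [InnerProductSpace ℝ E] [FiniteDimensional ℝ E]
  (d : Data E)

/-- the edge vector -/
noncomputable def e (G : Fin 20) (X : Fin 8) : E := d.p (nb G X) - d.p G

theorem e_mem {G : Fin 20} {X Y : Fin 8} (hX : X ∈ facets G) (hY : Y ∈ facets G) (h : Y ≠ X) :
    d.e G X ∈ d.W Y := d.hWp Y _ _ hY (nb_mem hX hY h)

theorem l_e_self {G : Fin 20} {A X : Fin 8} (hA : A ∈ facets G) (hX : X ∈ facets G) (h : A ≠ X) :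
    d.l A X (d.e G X) < 0 := by
  rw [e, map_sub, d.hl0 A X h G hA hX]
  have := d.hl1 A X h (nb G X) (nb_mem hX hA h) (nb_not hX)
  linarith

theorem l_e_other {G : Fin 20} {A X Y : Fin 8} (hA : A ∈ facets G) (hX : X ∈ facets G)
    (hY : Y ∈ facets G) (h : A ≠ X) (h' : A ≠ Y) (hXY : X ≠ Y) :
    d.l A X (d.e G Y) = 0 := by
  rw [e, map_sub, d.hl0 A X h G hA hX, d.hl0 A X h (nb G Y) (nb_mem hY hA h') (nb_mem hY hX hXY)]
  simp

theorem basis {G : Fin 20} {A B C D : Fin 8} (hG : facets G = {A, B, C, D})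
    (h : A ≠ B ∧ A ≠ C ∧ A ≠ D ∧ B ≠ C ∧ B ≠ D ∧ C ≠ D) :
    3 ≤ finrank ℝ (d.W A) ∧ ∀ v ∈ d.W A, ∃ a b c : ℝ,
      v = a • d.e G B + b • d.e G C + c • d.e G D := by
  obtain ⟨h1, h2, h3, h4, h5, h6⟩ := h
  have mA : A ∈ facets G := by simp [hG]
  have mB : B ∈ facets G := by simp [hG]
  have mC : C ∈ facets G := by simp [hG]
  have mD : D ∈ facets G := by simp [hG]
  have := span3 (d.W A) (d.e G B) (d.e G C) (d.e G D) (d.e_mem mB mA h1) (d.e_mem mC mA h2)
    (d.e_mem mD mA h3) (d.l A B) (d.l A C) (d.l A D)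
    (d.l_e_self mA mB h1).ne (d.l_e_other mA mB mC h1 h2 h4) (d.l_e_other mA mB mD h1 h3 h5)
    (d.l_e_other mA mC mB h2 h1 h4.symm) (d.l_e_self mA mC h2).ne
    (d.l_e_other mA mC mD h2 h3 h6)
    (d.l_e_other mA mD mB h3 h1 h5.symm) (d.l_e_other mA mD mC h3 h2 h6.symm)
    (d.l_e_self mA mD h3).ne
  exact ⟨this.1, this.2 (d.hW A)⟩

theorem finW (A : Fin 8) : finrank ℝ (d.W A) = 3 := by
  obtain ⟨G, hG⟩ := ex_facet A
  obtain ⟨B, hB, hAB⟩ := ex_other G A
  obtain ⟨C, D, hG4, h⟩ := ext4 G A hG B hB hAB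
  exact le_antisymm (d.hW A) (d.basis hG4 ⟨hAB, h⟩).1

/-- if all edge vectors at `G` other than the one opposite to `Z` lie in `U` then `W Z ≤ U` -/
theorem W_le {G : Fin 20} {Z : Fin 8} (hZ : Z ∈ facets G) (U : Submodule ℝ E)
    (h : ∀ T ∈ facets G, T ≠ Z → d.e G T ∈ U) : d.W Z ≤ U := by
  intro v hv
  obtain ⟨B, hB, hAB⟩ := ex_other G Z
  obtain ⟨C, D, hG4, h'⟩ := ext4 G Z hZ B hB hAB
  obtain ⟨a, b, c, rfl⟩ := (d.basis hG4 ⟨hAB, h'⟩).2 v hv
  refine U.add_mem (U.add_mem (U.smul_mem _ (h B hB hAB.symm)) (U.smul_mem _ (h C ?_ h'.1.symm)))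
    (U.smul_mem _ (h D ?_ h'.2.1.symm))
  · simp [hG4]
  · simp [hG4]

theorem closure (U : Submodule ℝ E) (A B : Fin 8) (hAB : A ≠ B) (hA : d.W A ≤ U)
    (hB : d.W B ≤ U) : ∀ X, d.W X ≤ U := by
  classical
  have key : (Finset.univ.filter fun X => d.W X ≤ U) = Finset.univ := by
    refine closure_lem _ ?_ ?_
    · refine Finset.one_lt_card.2 ⟨A, by simpa using hA, B, by simpa using hB, hAB⟩
    · intro G hG
      obtain ⟨X, hX, Y, hY, hXY⟩ := Finset.one_lt_card.1 hG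
      simp only [Finset.mem_inter, Finset.mem_filter, Finset.mem_univ, true_and] at hX hY
      intro Z hZ
      simp only [Finset.mem_filter, Finset.mem_univ, true_and]
      refine d.W_le hZ U fun T hT _ => ?_
      by_cases hTX : X = T
      · exact hY.2 (d.e_mem hT hY.1 (by rw [← hTX]; exact hXY.symm))
      · exact hX.2 (d.e_mem hT hX.1 hTX)
  intro X
  have : X ∈ (Finset.univ.filter fun X => d.W X ≤ U) := by rw [key]; simp
  simpa using this

end Data

end Pool.Agent.X161.ND
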