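import Pool.Agent.X161.ND.Core

/-!
# The linear algebra of a polyhedral realization of the dual of `M`: contradiction
-/

namespace Pool.Agent.X161.ND

open Module
open scoped InnerProductSpace Matrix

theorem conv4 {E : Type*} [AddCommGroup E] [Module ℝ E] {S : Set E} (hS : Convex ℝ S)
    {x0 x1 x2 x3 : E} (h0 : x0 ∈ S) (h1 : x1 ∈ S) (h2 : x2 ∈ S) (h3 : x3 ∈ S) {a b c : ℝ}
    (ha : 0 ≤ a) (hb : 0 ≤ b) (hc : 0 ≤ c) (habc : a + b + c ≤ 1) :
    x0 + a • (x1 - x0) + b • (x2 - x0) + c • (x3 - x0) ∈ S := by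
  have h := hS.sum_mem (t := (Finset.univ : Finset (Fin 4))) (w := ![1 - a - b - c, a, b, c])
    (z := ![x0, x1, x2, x3]) ?_ ?_ ?_
  · rw [Fin.sum_univ_four] at h
    simp only [Matrix.cons_val_zero, Matrix.cons_val_one, Matrix.cons_val] at h
    convert h using 1
    module
  · intro i _
    fin_cases i
    · simp; linarith
    · exact ha
    · exact hb
    · exact hc
  · rw [Fin.sum_univ_four]
    simp only [Matrix.cons_val_zero, Matrix.cons_val_one, Matrix.cons_val]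
    ring
  · intro i _
    fin_cases i
    · exact h0
    · exact h1
    · exact h2
    · exact h3

theorem inner_neg_aux {E : Type*} [NormedAddCommGroup E] [InnerProductSpace ℝ E] {p q : E}
    (h : ‖q‖ ≤ ‖p‖) (hne : q - p ≠ 0) : ⟪p, q - p⟫_ℝ < 0 := by
  have h1 : ‖p + (q - p)‖ ^ 2 = ‖p‖ ^ 2 + 2 * ⟪p, q - p⟫_ℝ + ‖q - p‖ ^ 2 := norm_add_sq_real _ _
  have h2 : p + (q - p) = q := by abel
  rw [h2] at h1
  have h3 : 0 < ‖q - p‖ := norm_pos_iff.2 hne
  have h4 : ‖q‖ ^ 2 ≤ ‖p‖ ^ 2 := by gcongr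
  nlinarith [pow_pos h3 2]

namespace Data

variable {E : Type*} [NormedAddCommGroup E] [InnerProductSpace ℝ E] [FiniteDimensional ℝ E]
  (d : Data E)

theorem neg_coef {G : Fin 20} {A B C D : Fin 8} (hG : facets G = {A, B, C, D})
    (h : A ≠ B ∧ A ≠ C ∧ A ≠ D ∧ B ≠ C ∧ B ≠ D ∧ C ≠ D) (b c c' : ℝ)
    (he : d.e G A = b • d.e G B + c • d.e G C + c' • d.e G D) : b < 0 := by
  obtain ⟨h1, h2, h3, h4, h5, h6⟩ := h
  have mA : A ∈ facets G := by simp [hG]
  have mB : B ∈ facets G := by simp [hG]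
  have mC : C ∈ facets G := by simp [hG]
  have mD : D ∈ facets G := by simp [hG]
  by_contra hb
  push Not at hb
  obtain ⟨K, hK⟩ : ∃ K : ℝ, K = |c| + |c'| := ⟨_, rfl⟩
  have hK0 : 0 ≤ K := by rw [hK]; positivity
  have hc1 : c ≤ K := by rw [hK]; linarith [le_abs_self c, abs_nonneg c']
  have hc2 : c' ≤ K := by rw [hK]; linarith [le_abs_self c', abs_nonneg c]
  have hc3 : 0 ≤ c + K := by rw [hK]; linarith [neg_abs_le c, abs_nonneg c']
  have hc4 : 0 ≤ c' + K := by rw [hK]; linarith [neg_abs_le c', abs_nonneg c]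
  obtain ⟨t, ht⟩ : ∃ t : ℝ, t = 1 / (1 + b + 4 * K) := ⟨_, rfl⟩
  have hden : 0 < 1 + b + 4 * K := by linarith
  have ht0 : 0 < t := by rw [ht]; positivity
  have ht1 : t * (1 + b + 4 * K) = 1 := by rw [ht]; field_simp
  have mem : ∀ X G', X ∈ facets G' →
      d.p G' ∈ convexHull ℝ {x | ∃ G, X ∈ facets G ∧ x = d.p G} :=
    fun X G' hX => subset_convexHull ℝ _ ⟨G', hX, rfl⟩
  have z1 := conv4 (convex_convexHull ℝ {x | ∃ G, A ∈ facets G ∧ x = d.p G})
    (mem A G mA) (mem A (nb G B) (nb_mem mB mA h1)) (mem A (nb G C) (nb_mem mC mA h2))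
    (mem A (nb G D) (nb_mem mD mA h3)) (a := t * b) (b := t * (c + K)) (c := t * (c' + K))
    (by positivity) (by positivity) (by positivity) (by nlinarith)
  have z2 := conv4 (convex_convexHull ℝ {x | ∃ G, B ∈ facets G ∧ x = d.p G})
    (mem B G mB) (mem B (nb G A) (nb_mem mA mB h1.symm)) (mem B (nb G C) (nb_mem mC mB h4))
    (mem B (nb G D) (nb_mem mD mB h5)) (a := t) (b := t * K) (c := t * K)
    (by positivity) (by positivity) (by positivity) (by nlinarith)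
  have hz : d.p G + (t * b) • (d.p (nb G B) - d.p G) + (t * (c + K)) • (d.p (nb G C) - d.p G)
      + (t * (c' + K)) • (d.p (nb G D) - d.p G)
      = d.p G + t • (d.p (nb G A) - d.p G) + (t * K) • (d.p (nb G C) - d.p G)
      + (t * K) • (d.p (nb G D) - d.p G) := by
    have he' := he
    simp only [e] at he'
    rw [he']
    module
  rw [hz] at z1
  have hl := d.hI A B h1 _ z1 z2
  have q1 := d.l_e_self mB mA h1.symm
  have q2 := d.l_e_other mB mA mC h1.symm h4 h2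
  have q3 := d.l_e_other mB mA mD h1.symm h5 h3
  simp only [e] at q1 q2 q3
  rw [map_add, map_add, map_add, map_smul, map_smul, map_smul, q2, q3,
    d.hl0 B A h1.symm G mB mA] at hl
  simp only [smul_eq_mul, mul_zero, add_zero] at hl
  have : t * (d.l B A (d.p (nb G A) - d.p G)) < 0 := mul_neg_of_pos_of_neg ht0 q1
  linarith

theorem caseI (A B : Fin 8) (hAB : A ≠ B) (h : d.W A = d.W B) : False := by
  have hall : ∀ X, d.W X = d.W A := fun X =>
    Submodule.eq_of_le_of_finrank_eq (d.closure (d.W A) A B hAB le_rfl h.ge X)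
      (by rw [d.finW, d.finW])
  obtain ⟨G, hG⟩ := Finite.exists_max fun G : Fin 20 => ‖d.p G‖
  obtain ⟨X, hX, -⟩ := ex_other G 0
  obtain ⟨Y, hY, hXY⟩ := ex_other G X
  obtain ⟨Z, T, hG4, h1, h2, h3, h4, h5⟩ := ext4 G X hX Y hY hXY
  have mZ : Z ∈ facets G := by simp [hG4]
  have mT : T ∈ facets G := by simp [hG4]
  have hmem : d.e G X ∈ d.W X := by
    rw [hall X, ← hall Y]; exact d.e_mem hX hY hXY.symm
  obtain ⟨a, b, c, he⟩ := (d.basis hG4 ⟨hXY, h1, h2, h3, h4, h5⟩).2 _ hmem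
  have ha := d.neg_coef hG4 ⟨hXY, h1, h2, h3, h4, h5⟩ a b c he
  have hb := d.neg_coef (G := G) (A := X) (B := Z) (C := Y) (D := T)
    (by rw [hG4]; ext; simp only [Finset.mem_insert, Finset.mem_singleton]; tauto)
    ⟨h1, hXY, h2, h3.symm, h5, h4⟩ b a c (by rw [he]; abel)
  have hc := d.neg_coef (G := G) (A := X) (B := T) (C := Y) (D := Z)
    (by rw [hG4]; ext; simp only [Finset.mem_insert, Finset.mem_singleton]; tauto)
    ⟨h2, hXY, h1, h4.symm, h5.symm, h3⟩ c a b (by rw [he]; abel)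
  have neg : ∀ S ∈ facets G, ∀ S' ∈ facets G, S' ≠ S → ⟪d.p G, d.e G S⟫_ℝ < 0 := by
    intro S hS S' hS' hSS'
    refine inner_neg_aux (hG _) fun h0 => ?_
    have := d.l_e_self hS' hS hSS'
    rw [e, h0, map_zero] at this
    exact lt_irrefl _ this
  have n1 := neg X hX Y hY hXY.symm
  have n2 := neg Y hY X hX hXY
  have n3 := neg Z mZ X hX h1
  have n4 := neg T mT X hX h2
  rw [he, inner_add_right, inner_add_right, inner_smul_right, inner_smul_right,
    inner_smul_right] at n1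
  nlinarith [mul_pos_of_neg_of_neg ha n2, mul_pos_of_neg_of_neg hb n3,
    mul_pos_of_neg_of_neg hc n4]

theorem e_notMem (hne : ∀ A B, A ≠ B → d.W A ≠ d.W B) {G : Fin 20} {A : Fin 8}
    (hA : A ∈ facets G) : d.e G A ∉ d.W A := by
  intro h
  obtain ⟨B, hB, hAB⟩ := ex_other G A
  refine hne B A hAB.symm (Submodule.eq_of_le_of_finrank_eq (d.W_le hB _ fun T hT _ => ?_)
    (by rw [d.finW, d.finW]))
  by_cases hTA : T = A
  · rw [hTA]; exact h
  · exact d.e_mem hT hA (fun h' => hTA h'.symm)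

theorem exF (hne : ∀ A B, A ≠ B → d.W A ≠ d.W B) (A : Fin 8) :
    ∃ f : E →ₗ[ℝ] ℝ, (∀ w ∈ d.W A, f w = 0) ∧ ∀ G, A ∈ facets G → f (d.e G A) ≠ 0 := by
  obtain ⟨G, hG⟩ := ex_facet A
  obtain ⟨f, hf, hf2⟩ := Submodule.exists_dual_map_eq_bot_of_notMem (d.e_notMem hne hG)
    inferInstance
  have hf3 : ∀ w ∈ d.W A, f w = 0 := by
    intro w hw
    have : f w ∈ (d.W A).map f := Submodule.mem_map_of_mem hw
    rw [hf2] at this
    simpa using this
  refine ⟨f, hf3, fun G' hG' h0 => hf ?_⟩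
  obtain ⟨B, hB, hAB⟩ := ex_other G' A
  have hU : ∀ X, d.W X ≤ LinearMap.ker f := by
    refine d.closure _ A B hAB (fun w hw => hf3 w hw) ?_
    refine d.W_le hB _ fun T hT _ => ?_
    rw [LinearMap.mem_ker]
    by_cases hTA : T = A
    · rw [hTA]; exact h0
    · exact hf3 _ (d.e_mem hT hG' (fun h' => hTA h'.symm))
  obtain ⟨C, hC, hAC⟩ := ex_other G A
  exact hU C (d.e_mem hG hC hAC.symm)

theorem exFpos (hne : ∀ A B, A ≠ B → d.W A ≠ d.W B) (A : Fin 8) :
    ∃ (f : E →ₗ[ℝ] ℝ) (c : ℝ), (∀ G, A ∈ facets G → f (d.p G) = c) ∧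
      ∀ G, A ∉ facets G → 0 < f (d.p G) - c := by
  obtain ⟨f, hf, hf2⟩ := d.exF hne A
  obtain ⟨G0, hG0⟩ := ex_facet A
  have hc : ∀ G, A ∈ facets G → f (d.p G) = f (d.p G0) := by
    intro G hG
    have := hf _ (d.hWp A G0 G hG0 hG)
    rw [map_sub] at this
    linarith
  have key : ∀ X, X ≠ A → ∃ s : ℝ, s ≠ 0 ∧ ∀ K, X ∈ facets K → A ∉ facets K →
      0 < (f (d.p K) - f (d.p G0)) * s := by
    intro X hXA
    obtain ⟨G1, hX1, hA1⟩ := pair_lem X A
    obtain ⟨C, D, hG4, h1, h2, h3, h4, h5⟩ := ext4 G1 X hX1 A hA1 hXA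
    have mC : C ∈ facets G1 := by simp [hG4]
    have mD : D ∈ facets G1 := by simp [hG4]
    refine ⟨f (d.e G1 A), hf2 G1 hA1, fun K hK hAK => ?_⟩
    obtain ⟨a, b, c, hv⟩ := (d.basis hG4 ⟨hXA, h1, h2, h3, h4, h5⟩).2 _
      (d.hWp X G1 K hX1 hK)
    have e1 := congrArg f hv
    have e2 := congrArg (d.l X A) hv
    simp only [map_add, map_smul, smul_eq_mul] at e1 e2
    rw [hf _ (d.e_mem mC hA1 h3), hf _ (d.e_mem mD hA1 h4), map_sub, hc G1 hA1] at e1
    rw [d.l_e_other hX1 hA1 mC hXA h1 h3, d.l_e_other hX1 hA1 mD hXA h2 h4, map_sub,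
      d.hl0 X A hXA G1 hX1 hA1] at e2
    have e3 := d.l_e_self hX1 hA1 hXA
    have e4 := d.hl1 X A hXA K hK hAK
    have e5 : a * d.l X A (d.e G1 A) < 0 := by linarith
    have ha : 0 < a := pos_of_mul_neg_left e5 e3.le
    rw [show f (d.p K) - f (d.p G0) = a * f (d.e G1 A) by linarith]
    have : 0 < f (d.e G1 A) * f (d.e G1 A) := mul_self_pos.2 (hf2 G1 hA1)
    have := mul_pos ha this
    linarith
  have key2 : ∀ G H, A ∉ facets G → A ∉ facets H →
      0 < (f (d.p G) - f (d.p G0)) * (f (d.p H) - f (d.p G0)) := by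
    intro G H hG hH
    obtain ⟨K, hK, ⟨X, hX⟩, ⟨Y, hY⟩⟩ := avoid_lem A G H hG hH
    rw [Finset.mem_inter] at hX hY
    obtain ⟨s, hs, hs2⟩ := key X (fun h => hK (h ▸ hX.1))
    obtain ⟨s', hs', hs2'⟩ := key Y (fun h => hK (h ▸ hY.1))
    have a1 := hs2 G hX.2 hG
    have a2 := hs2 K hX.1 hK
    have a3 := hs2' K hY.1 hK
    have a4 := hs2' H hY.2 hH
    have b1 : 0 < (f (d.p G) - f (d.p G0)) * (f (d.p K) - f (d.p G0)) :=
      sq_pos_aux (b := s) (by rw [mul_comm s]; exact mul_pos a1 a2)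
    have b2 : 0 < (f (d.p K) - f (d.p G0)) * (f (d.p H) - f (d.p G0)) :=
      sq_pos_aux (b := s') (by rw [mul_comm s']; exact mul_pos a3 a4)
    exact pp b1 b2
  obtain ⟨H, hH⟩ : ∃ H, A ∉ facets H := ⟨_, nb_not hG0⟩
  have hH0 := key2 H H hH hH
  rcases lt_or_gt_of_ne (mul_self_pos.1 hH0) with hs | hs
  · refine ⟨-f, - f (d.p G0), fun G hG => by rw [LinearMap.neg_apply, hc G hG], fun G hG => ?_⟩
    have := key2 G H hG hH
    rw [LinearMap.neg_apply]
    have := neg_of_mul_pos_left this hs.le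
    linarith
  · refine ⟨f, f (d.p G0), hc, fun G hG => ?_⟩
    exact pos_of_mul_pos_left (key2 G H hG hH) hs.le

theorem caseII (hne : ∀ A B, A ≠ B → d.W A ≠ d.W B) : False := by
  choose f c hf0 hf1 using d.exFpos hne
  have hU : ∀ X, d.W X ≤ d.W 0 ⊔ d.W 1 :=
    d.closure _ 0 1 (by decide) le_sup_left le_sup_right
  have hrep : ∀ G, ∃ k : Fin 4 → ℝ, d.p G - d.p 0 = k 0 • d.e 0 0 + k 1 • d.e 0 1
      + k 2 • d.e 0 2 + k 3 • d.e 0 3 := by
    intro G
    obtain ⟨X, hX, -⟩ := ex_other G 0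
    obtain ⟨K, hK0, hKX⟩ := pair_lem 0 X
    have h1 : d.p G - d.p 0 ∈ d.W 0 ⊔ d.W 1 := by
      have e1 := hU X (d.hWp X K G hKX hX)
      have e2 := hU 0 (d.hWp 0 0 K (by decide) hK0)
      have := Submodule.add_mem _ e1 e2
      rwa [sub_add_sub_cancel] at this
    obtain ⟨y, hy, z, hz, hyz⟩ := Submodule.mem_sup.1 h1
    obtain ⟨a1, a2, a3, ha⟩ := (d.basis (G := 0) (A := 0) (B := 1) (C := 2) (D := 3) rfl
      (by decide)).2 y hy
    obtain ⟨b1, b2, b3, hb⟩ := (d.basis (G := 0) (A := 1) (B := 0) (C := 2) (D := 3) (by decide)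
      (by decide)).2 z hz
    refine ⟨![b1, a1, a2 + b2, a3 + b3], ?_⟩
    rw [← hyz, ha, hb]
    simp only [Matrix.cons_val_zero, Matrix.cons_val_one, Matrix.cons_val]
    module
  choose k hk using hrep
  have hdot : ∀ A G, (![f A (d.e 0 0), f A (d.e 0 1), f A (d.e 0 2), f A (d.e 0 3),
      f A (d.p 0) - c A] : Fin 5 → ℝ) ⬝ᵥ ![k G 0, k G 1, k G 2, k G 3, 1] = f A (d.p G) - c A := by
    intro A G
    have := congrArg (f A) (hk G)
    simp only [map_add, map_sub, map_smul, smul_eq_mul] at this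
    rw [dotProduct, Fin.sum_univ_five]
    simp only [Matrix.cons_val_zero, Matrix.cons_val_one, Matrix.cons_val]
    linarith
  refine noVec (fun A => ![f A (d.e 0 0), f A (d.e 0 1), f A (d.e 0 2), f A (d.e 0 3),
      f A (d.p 0) - c A]) (fun G => ![k G 0, k G 1, k G 2, k G 3, 1]) ?_ ?_
  · intro G A hA
    rw [hdot, hf0 A G hA, sub_self]
  · intro G A hA
    rw [hdot]
    exact hf1 A G hA

theorem absurd' {E : Type*} [NormedAddCommGroup E] [InnerProductSpace ℝ E]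
    [FiniteDimensional ℝ E] (d : Data E) : False := by
  by_cases h : ∀ A B, A ≠ B → d.W A ≠ d.W B
  · exact d.caseII h
  · push Not at h
    obtain ⟨A, B, hAB, h⟩ := h
    exact d.caseI A B hAB h

end Data

end Pool.Agent.X161.ND
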