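import Pool.Agent.X161.ND.Brk

/-!
# No eight vectors of `ℝ⁵` have the facet structure of the sphere `M`
-/

namespace Pool.Agent.X161.ND

open scoped Matrix

/-- the 20 tetrahedra of the neighborly 3-sphere `M` on the vertices `0, ..., 7 = A, ..., H` -/
def facets : Fin 20 → Finset (Fin 8) :=
  ![{0,1,2,3}, {0,1,2,5}, {0,1,3,5}, {0,2,3,6}, {0,2,5,7}, {0,2,6,7}, {0,3,4,5}, {0,3,4,6},
    {0,4,5,7}, {0,4,6,7}, {1,2,3,7}, {1,2,4,5}, {1,2,4,7}, {1,3,5,6}, {1,3,6,7}, {1,4,5,6},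
    {1,4,6,7}, {2,3,6,7}, {2,4,5,7}, {3,4,5,6}]

theorem nbEx : ∀ G : Fin 20, ∀ X ∈ facets G, ∃ H : Fin 20, X ∉ facets H ∧
    (facets G).erase X ⊆ facets H := by decide

theorem closure_lem : ∀ S : Finset (Fin 8), 2 ≤ S.card →
    (∀ G : Fin 20, 2 ≤ (facets G ∩ S).card → facets G ⊆ S) → S = Finset.univ := by decide +kernel

theorem avoid_lem : ∀ A : Fin 8, ∀ G H : Fin 20, A ∉ facets G → A ∉ facets H →
    ∃ K : Fin 20, A ∉ facets K ∧ (facets K ∩ facets G).Nonempty ∧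
      (facets K ∩ facets H).Nonempty := by decide

theorem pair_lem : ∀ A B : Fin 8, ∃ G : Fin 20, A ∈ facets G ∧ B ∈ facets G := by decide

theorem max_lem : ∀ s : Finset (Fin 8), (∃ H : Fin 20, s ⊆ facets H) →
    ∀ G : Fin 20, facets G ⊆ s → s = facets G := by decide +kernel

end Pool.Agent.X161.ND
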