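import Pool.Agent.X161.ND.Vec

/-!
# No eight vectors of `ℝ⁵` have the facet structure of the sphere `M`
-/

namespace Pool.Agent.X161.ND

open scoped Matrix

theorem D_m0 (x y z u v : Fin 5 → ℝ) : D x y z u v = D x y z u v := rfl
theorem D_m1 (x y z u v : Fin 5 → ℝ) : D x y z v u = - D x y z u v := D_sw4 _ _ _ _ _
theorem D_m2 (x y z u v : Fin 5 → ℝ) : D x y v z u = D x y z u v := by
  rw [D_sw3 x y z v u, D_m1]; ring
theorem D_m3 (x y z u v : Fin 5 → ℝ) : D x v y z u = - D x y z u v := by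
  rw [D_sw2 x y v z u, D_m2]
theorem D_m4 (x y z u v : Fin 5 → ℝ) : D v x y z u = D x y z u v := by
  rw [D_sw1 x v y z u, D_m3]; ring

theorem sq_pos_aux {a b c : ℝ} (h : 0 < (a * b) * (b * c)) : 0 < a * c := by
  have h2 : (a * b) * (b * c) = (a * c) * (b * b) := by ring
  rw [h2] at h
  by_contra hn
  push Not at hn
  exact absurd h (not_lt.2 (mul_nonpos_of_nonpos_of_nonneg hn (mul_self_nonneg b)))

theorem pp {r a b : ℝ} (h : 0 < r * a) (h' : 0 < a * b) : 0 < r * b := sq_pos_aux (mul_pos h h')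
theorem nn {r a b : ℝ} (h : r * a < 0) (h' : a * b < 0) : 0 < r * b :=
  sq_pos_aux (mul_pos_of_neg_of_neg h h')
theorem pn {r a b : ℝ} (h : 0 < r * a) (h' : a * b < 0) : r * b < 0 := by
  have := pp (r := r) (a := a) (b := -b) h (by linarith)
  linarith
theorem np {r a b : ℝ} (h : r * a < 0) (h' : 0 < a * b) : r * b < 0 := by
  have := nn (r := r) (a := a) (b := -b) h (by linarith)
  linarith

theorem D_lin5 (a b c d : Fin 5 → ℝ) : ∃ m : Fin 5 → ℝ, ∀ e, D a b c d e = e ⬝ᵥ m := by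
  obtain ⟨m, hm⟩ := D_lin a b c d
  exact ⟨m, fun e => by rw [← D_m4, hm]; rfl⟩

theorem mulVec5 (a b c d e p : Fin 5 → ℝ) (h1 : a ⬝ᵥ p = 0) (h2 : b ⬝ᵥ p = 0) (h3 : c ⬝ᵥ p = 0)
    (h4 : d ⬝ᵥ p = 0) (h5 : e ⬝ᵥ p = 0) (hp : p ≠ 0) : D a b c d e = 0 := by
  refine Matrix.exists_mulVec_eq_zero_iff.1 ⟨p, hp, ?_⟩
  ext i
  fin_cases i
  · exact h1
  · exact h2
  · exact h3
  · exact h4
  · exact h5

theorem nonzero5 (a b c d e : Fin 5 → ℝ) (h : D a b c d e = 0) :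
    ∃ w : Fin 5 → ℝ, w ≠ 0 ∧ ∀ p : Fin 5 → ℝ,
      w 0 * (a ⬝ᵥ p) + w 1 * (b ⬝ᵥ p) + w 2 * (c ⬝ᵥ p) + w 3 * (d ⬝ᵥ p) + w 4 * (e ⬝ᵥ p) = 0 := by
  obtain ⟨w, hw, h2⟩ := Matrix.exists_vecMul_eq_zero_iff.2 h
  refine ⟨w, hw, fun p => ?_⟩
  have h3 : (w ᵥ* Matrix.of ![a, b, c, d, e]) ⬝ᵥ p = 0 := by rw [h2]; simp
  rw [← Matrix.dotProduct_mulVec, dotProduct, Fin.sum_univ_five] at h3
  exact h3

theorem fl (V : Fin 8 → Fin 5 → ℝ) (P : Fin 20 → Fin 5 → ℝ)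
    (h0 : ∀ G, ∀ i ∈ facets G, V i ⬝ᵥ P G = 0)
    (h1 : ∀ G, ∀ i, i ∉ facets G → 0 < V i ⬝ᵥ P G)
    (G : Fin 20) (x y z u v v' : Fin 8) (hG : facets G = {x, y, z, u})
    (hd : x ≠ y ∧ x ≠ z ∧ x ≠ u ∧ y ≠ z ∧ y ≠ u ∧ z ≠ u)
    (hv : v ∉ facets G) (hv' : v' ∉ facets G) :
    0 < D (V x) (V y) (V z) (V u) (V v) * D (V x) (V y) (V z) (V u) (V v') := by
  obtain ⟨m, hm⟩ := D_lin5 (V x) (V y) (V z) (V u)
  have hx := h0 G x (by simp [hG])
  have hy := h0 G y (by simp [hG])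
  have hz := h0 G z (by simp [hG])
  have hu := h0 G u (by simp [hG])
  have hP : P G ≠ 0 := by
    intro h
    have := h1 G v hv
    rw [h] at this
    simp at this
  have pv := h1 G v hv
  have pv' := h1 G v' hv'
  have key : (V v' ⬝ᵥ P G) * D (V x) (V y) (V z) (V u) (V v)
      = (V v ⬝ᵥ P G) * D (V x) (V y) (V z) (V u) (V v') := by
    have h := mulVec5 (V x) (V y) (V z) (V u) ((V v' ⬝ᵥ P G) • V v - (V v ⬝ᵥ P G) • V v') (P G)
      hx hy hz hu (by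
        rw [sub_dotProduct, smul_dotProduct, smul_dotProduct]
        simp only [smul_eq_mul]; ring) hP
    rw [hm, sub_dotProduct, smul_dotProduct, smul_dotProduct, ← hm, ← hm] at h
    simp only [smul_eq_mul] at h
    linarith
  have hne : ∀ t, t ∉ facets G → D (V x) (V y) (V z) (V u) (V t) ≠ 0 := by
    intro t ht h
    obtain ⟨w, hw, h2⟩ := nonzero5 _ _ _ _ _ h
    have e4 : w 4 = 0 := by
      have := h2 (P G)
      rw [hx, hy, hz, hu] at this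
      simp only [mul_zero, zero_add] at this
      exact (mul_eq_zero.1 this).resolve_right (h1 G t ht).ne'
    obtain ⟨d1, d2, d3, d4, d5, d6⟩ := hd
    have key2 : ∀ X ∈ facets G, ∃ H : Fin 20, X ∉ facets H ∧
        ∀ Y ∈ facets G, Y ≠ X → Y ∈ facets H := by
      intro X hX
      obtain ⟨H, hH1, hH2⟩ := nbEx G X hX
      exact ⟨H, hH1, fun Y hY hYX => hH2 (Finset.mem_erase.2 ⟨hYX, hY⟩)⟩
    have mx : x ∈ facets G := by simp [hG]
    have my : y ∈ facets G := by simp [hG]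
    have mz : z ∈ facets G := by simp [hG]
    have mu : u ∈ facets G := by simp [hG]
    have e0 : w 0 = 0 := by
      obtain ⟨H, hH1, hH2⟩ := key2 x mx
      have := h2 (P H)
      rw [h0 H y (hH2 y my d1.symm), h0 H z (hH2 z mz d2.symm), h0 H u (hH2 u mu d3.symm), e4] at this
      simp only [mul_zero, zero_mul, add_zero] at this
      exact (mul_eq_zero.1 this).resolve_right (h1 H x hH1).ne'
    have e1 : w 1 = 0 := by
      obtain ⟨H, hH1, hH2⟩ := key2 y my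
      have := h2 (P H)
      rw [h0 H x (hH2 x mx d1), h0 H z (hH2 z mz d4.symm), h0 H u (hH2 u mu d5.symm), e4] at this
      simp only [mul_zero, zero_mul, add_zero, zero_add] at this
      exact (mul_eq_zero.1 this).resolve_right (h1 H y hH1).ne'
    have e2 : w 2 = 0 := by
      obtain ⟨H, hH1, hH2⟩ := key2 z mz
      have := h2 (P H)
      rw [h0 H x (hH2 x mx d2), h0 H y (hH2 y my d4), h0 H u (hH2 u mu d6.symm), e4] at this
      simp only [mul_zero, zero_mul, add_zero, zero_add] at this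
      exact (mul_eq_zero.1 this).resolve_right (h1 H z hH1).ne'
    have e3 : w 3 = 0 := by
      obtain ⟨H, hH1, hH2⟩ := key2 u mu
      have := h2 (P H)
      rw [h0 H x (hH2 x mx d3), h0 H y (hH2 y my d5), h0 H z (hH2 z mz d6), e4] at this
      simp only [mul_zero, zero_mul, add_zero, zero_add] at this
      exact (mul_eq_zero.1 this).resolve_right (h1 H u hH1).ne'
    apply hw
    ext i
    fin_cases i
    · exact e0
    · exact e1
    · exact e2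
    · exact e3
    · exact e4
  have n1 := hne v hv
  have h3 : 0 < (V v ⬝ᵥ P G) * (D (V x) (V y) (V z) (V u) (V v) * D (V x) (V y) (V z) (V u) (V v')) := by
    have h4 : (V v ⬝ᵥ P G) * (D (V x) (V y) (V z) (V u) (V v) * D (V x) (V y) (V z) (V u) (V v'))
        = (V v' ⬝ᵥ P G) * (D (V x) (V y) (V z) (V u) (V v) * D (V x) (V y) (V z) (V u) (V v)) := by
      linear_combination (-1) * D (V x) (V y) (V z) (V u) (V v) * key
    rw [h4]
    exact mul_pos pv' (mul_self_pos.2 n1)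
  exact (mul_pos_iff_of_pos_left pv).1 h3

set_option maxHeartbeats 4000000 in
theorem noVec (V : Fin 8 → Fin 5 → ℝ) (P : Fin 20 → Fin 5 → ℝ)
    (h0 : ∀ G, ∀ i ∈ facets G, V i ⬝ᵥ P G = 0)
    (h1 : ∀ G, ∀ i, i ∉ facets G → 0 < V i ⬝ᵥ P G) : False := by
  obtain ⟨r, hr⟩ : ∃ r : ℝ, r = D (V 0) (V 2) (V 3) (V 4) (V 5) := ⟨_, rfl⟩
  have h02345 : 0 < r * D (V 0) (V 2) (V 3) (V 4) (V 5) := by
    have h := fl V P h0 h1 6 0 3 4 5 2 2 rfl (by decide) (by decide) (by decide)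
    have e := D_m3 (V 0) (V 3) (V 4) (V 5) (V 2)
    rw [hr, e]; linarith
  have h03456 : r * D (V 0) (V 3) (V 4) (V 5) (V 6) < 0 := by
    have h := fl V P h0 h1 6 0 3 4 5 2 6 rfl (by decide) (by decide) (by decide)
    have e1 := D_m3 (V 0) (V 3) (V 4) (V 5) (V 2)
    have e2 := D_m0 (V 0) (V 3) (V 4) (V 5) (V 6)
    have h' : (D (V 0) (V 2) (V 3) (V 4) (V 5)) * (D (V 0) (V 3) (V 4) (V 5) (V 6)) < 0 := by
      rw [e1, e2]; linarith
    exact pn h02345 h'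
  have h02346 : r * D (V 0) (V 2) (V 3) (V 4) (V 6) < 0 := by
    have h := fl V P h0 h1 7 0 3 4 6 5 2 rfl (by decide) (by decide) (by decide)
    have e1 := D_m1 (V 0) (V 3) (V 4) (V 6) (V 5)
    have e2 := D_m3 (V 0) (V 3) (V 4) (V 6) (V 2)
    have h' : 0 < (D (V 0) (V 3) (V 4) (V 5) (V 6)) * (D (V 0) (V 2) (V 3) (V 4) (V 6)) := by
      rw [e1, e2]; linarith
    exact np h03456 h'
  have h02367 : 0 < r * D (V 0) (V 2) (V 3) (V 6) (V 7) := by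
    have h := fl V P h0 h1 3 0 2 3 6 4 7 rfl (by decide) (by decide) (by decide)
    have e1 := D_m1 (V 0) (V 2) (V 3) (V 6) (V 4)
    have e2 := D_m0 (V 0) (V 2) (V 3) (V 6) (V 7)
    have h' : (D (V 0) (V 2) (V 3) (V 4) (V 6)) * (D (V 0) (V 2) (V 3) (V 6) (V 7)) < 0 := by
      rw [e1, e2]; linarith
    exact nn h02346 h'
  have h23567 : 0 < r * D (V 2) (V 3) (V 5) (V 6) (V 7) := by
    have h := fl V P h0 h1 17 2 3 6 7 0 5 rfl (by decide) (by decide) (by decide)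
    have e1 := D_m4 (V 2) (V 3) (V 6) (V 7) (V 0)
    have e2 := D_m2 (V 2) (V 3) (V 6) (V 7) (V 5)
    have h' : 0 < (D (V 0) (V 2) (V 3) (V 6) (V 7)) * (D (V 2) (V 3) (V 5) (V 6) (V 7)) := by
      rw [e1, e2]; linarith
    exact pp h02367 h'
  have h02356 : r * D (V 0) (V 2) (V 3) (V 5) (V 6) < 0 := by
    have h := fl V P h0 h1 3 0 2 3 6 4 5 rfl (by decide) (by decide) (by decide)
    have e1 := D_m1 (V 0) (V 2) (V 3) (V 6) (V 4)
    have e2 := D_m1 (V 0) (V 2) (V 3) (V 6) (V 5)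
    have h' : 0 < (D (V 0) (V 2) (V 3) (V 4) (V 6)) * (D (V 0) (V 2) (V 3) (V 5) (V 6)) := by
      rw [e1, e2]; linarith
    exact np h02346 h'
  have h03457 : r * D (V 0) (V 3) (V 4) (V 5) (V 7) < 0 := by
    have h := fl V P h0 h1 6 0 3 4 5 2 7 rfl (by decide) (by decide) (by decide)
    have e1 := D_m3 (V 0) (V 3) (V 4) (V 5) (V 2)
    have e2 := D_m0 (V 0) (V 3) (V 4) (V 5) (V 7)
    have h' : (D (V 0) (V 2) (V 3) (V 4) (V 5)) * (D (V 0) (V 3) (V 4) (V 5) (V 7)) < 0 := by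
      rw [e1, e2]; linarith
    exact pn h02345 h'
  have h02457 : r * D (V 0) (V 2) (V 4) (V 5) (V 7) < 0 := by
    have h := fl V P h0 h1 8 0 4 5 7 3 2 rfl (by decide) (by decide) (by decide)
    have e1 := D_m3 (V 0) (V 4) (V 5) (V 7) (V 3)
    have e2 := D_m3 (V 0) (V 4) (V 5) (V 7) (V 2)
    have h' : 0 < (D (V 0) (V 3) (V 4) (V 5) (V 7)) * (D (V 0) (V 2) (V 4) (V 5) (V 7)) := by
      rw [e1, e2]; linarith
    exact np h03457 h'
  have h23457 : 0 < r * D (V 2) (V 3) (V 4) (V 5) (V 7) := by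
    have h := fl V P h0 h1 18 2 4 5 7 0 3 rfl (by decide) (by decide) (by decide)
    have e1 := D_m4 (V 2) (V 4) (V 5) (V 7) (V 0)
    have e2 := D_m3 (V 2) (V 4) (V 5) (V 7) (V 3)
    have h' : (D (V 0) (V 2) (V 4) (V 5) (V 7)) * (D (V 2) (V 3) (V 4) (V 5) (V 7)) < 0 := by
      rw [e1, e2]; linarith
    exact nn h02457 h'
  have h02357 : r * D (V 0) (V 2) (V 3) (V 5) (V 7) < 0 := by
    have h := fl V P h0 h1 4 0 2 5 7 4 3 rfl (by decide) (by decide) (by decide)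
    have e1 := D_m2 (V 0) (V 2) (V 5) (V 7) (V 4)
    have e2 := D_m2 (V 0) (V 2) (V 5) (V 7) (V 3)
    have h' : 0 < (D (V 0) (V 2) (V 4) (V 5) (V 7)) * (D (V 0) (V 2) (V 3) (V 5) (V 7)) := by
      rw [e1, e2]; linarith
    exact np h02457 h'
  have h23456 : r * D (V 2) (V 3) (V 4) (V 5) (V 6) < 0 := by
    have h := fl V P h0 h1 19 3 4 5 6 0 2 rfl (by decide) (by decide) (by decide)
    have e1 := D_m4 (V 3) (V 4) (V 5) (V 6) (V 0)
    have e2 := D_m4 (V 3) (V 4) (V 5) (V 6) (V 2)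
    have h' : 0 < (D (V 0) (V 3) (V 4) (V 5) (V 6)) * (D (V 2) (V 3) (V 4) (V 5) (V 6)) := by
      rw [e1, e2]; linarith
    exact np h03456 h'
  have gp := D_gp (V 2) (V 3) (V 5) (V 0) (V 4) (V 6) (V 7)
  have q0 : D (V 2) (V 3) (V 5) (V 0) (V 4) = D (V 0) (V 2) (V 3) (V 4) (V 5) := by
    rw [D_sw3 (V 2) (V 3) (V 0) (V 5) (V 4), D_sw4 (V 2) (V 3) (V 0) (V 4) (V 5), D_sw2 (V 2) (V 0) (V 3) (V 4) (V 5), D_sw1 (V 0) (V 2) (V 3) (V 4) (V 5)]; ring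
  have q1 : D (V 2) (V 3) (V 5) (V 6) (V 7) = D (V 2) (V 3) (V 5) (V 6) (V 7) := by
    rfl
  have q2 : D (V 2) (V 3) (V 5) (V 0) (V 6) = -D (V 0) (V 2) (V 3) (V 5) (V 6) := by
    rw [D_sw3 (V 2) (V 3) (V 0) (V 5) (V 6), D_sw2 (V 2) (V 0) (V 3) (V 5) (V 6), D_sw1 (V 0) (V 2) (V 3) (V 5) (V 6)]; ring
  have q3 : D (V 2) (V 3) (V 5) (V 4) (V 7) = -D (V 2) (V 3) (V 4) (V 5) (V 7) := by
    rw [D_sw3 (V 2) (V 3) (V 4) (V 5) (V 7)]
  have q4 : D (V 2) (V 3) (V 5) (V 0) (V 7) = -D (V 0) (V 2) (V 3) (V 5) (V 7) := by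
    rw [D_sw3 (V 2) (V 3) (V 0) (V 5) (V 7), D_sw2 (V 2) (V 0) (V 3) (V 5) (V 7), D_sw1 (V 0) (V 2) (V 3) (V 5) (V 7)]; ring
  have q5 : D (V 2) (V 3) (V 5) (V 4) (V 6) = -D (V 2) (V 3) (V 4) (V 5) (V 6) := by
    rw [D_sw3 (V 2) (V 3) (V 4) (V 5) (V 6)]
  rw [q0, q1, q2, q3, q4, q5] at gp
  have t0 := mul_pos h02345 h23567
  have t1 := mul_neg_of_neg_of_pos h02356 h23457
  have t2 := mul_pos_of_neg_of_neg h02357 h23456
  have gp2 := congrArg (fun x => r * r * x) gp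
  simp only [mul_zero] at gp2
  nlinarith [t0, t1, t2, gp2]

end Pool.Agent.X161.ND
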